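import Pool.Agent.H7CA.TableD

/-!
# Polynomial space against cellular automata of any dimension

For every `k ≥ 1`, every `K` and every `c < 1 / 2` there is one language `L` in space
`O(n ^ k)` such that, in every dimension `D = d + 1`, an array of processors (a cellular
automaton) with `s` bits in each cell that runs for `T` steps, with `K n ^ k` bits of advice in
its cells, is correct on a fraction `1 / 2 ± 2 ^ (-c n)` of the inputs of length `n`, when
`(T log n) ^ D s = o(n ^ (k (D + 1)))`. This holds for arbitrary local rules, chosen freely for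
every `n`, as long as the table of the rule has `o(n ^ k)` bits, and for local rules that are
given by a function in linear space and an advice word of length `o(n ^ k)`, for `s = o(n ^ k)`.
For `D = 1` and constant `s`: cellular automata need more than `o(n ^ (2 k) / log n)` steps.
The exponent `1 / 2` is optimal: one fixed rule with four bits in each cell and `n` bits of
advice differs from `1 / 2` by at least `2 ^ (-n / 2 - 1)` after `n + 1` steps, for every
language.
-/

namespace Pool.Agent.Results.MP_f404b1_lc.CellularArrays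

open Pool.Agent.H7LS Pool.Agent.H7CA Filter Asymptotics

theorem result (k : ℕ) (hk : 1 ≤ k) :
    (∀ (K : ℕ) (c : ℝ), c < 1 / 2 → ∃ L ∈ SPC k, ∀ d : ℕ,
      (∀ s T : ℕ → ℕ,
        (fun n : ℕ => (2 : ℝ) ^ (3 ^ (d + 1) * s n) * s n) =o[atTop]
          (fun n : ℕ => (n : ℝ) ^ k) →
        (fun n : ℕ => ((T n : ℝ) * Nat.log 2 n) ^ (d + 1) * s n) =o[atTop]
          (fun n : ℕ => (n : ℝ) ^ (k * (d + 2))) →
        ∀ᶠ n : ℕ in atTop, ∀ (φ : List (List Bool) → List Bool) (a : List Bool),
          a.length ≤ K * n ^ k →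
          |({x : List Bool | x.length = n ∧
              ((arr d φ n (s n) x a (T n) 0).getD 0 false = true ↔ x ∈ L)}.ncard : ℝ) /
              2 ^ n - 1 / 2| ≤ 2 ^ (-(c * n))) ∧
      (∀ f ∈ FLIN, ∀ p s T : ℕ → ℕ,
        (fun n : ℕ => (p n : ℝ) + s n) =o[atTop] (fun n : ℕ => (n : ℝ) ^ k) →
        (fun n : ℕ => ((T n : ℝ) * Nat.log 2 n) ^ (d + 1) * s n) =o[atTop]
          (fun n : ℕ => (n : ℝ) ^ (k * (d + 2))) →
        ∀ᶠ n : ℕ in atTop, ∀ b a : List Bool, b.length ≤ p n → a.length ≤ K * n ^ k →
          |({x : List Bool | x.length = n ∧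
              ((arr d (fun l => f (blk b ++ l.flatten)) n (s n) x a (T n) 0).getD 0 false =
                true ↔ x ∈ L)}.ncard : ℝ) / 2 ^ n - 1 / 2| ≤ 2 ^ (-(c * n)))) ∧
    (∃ φ : List (List Bool) → List Bool, ∀ (L : Set (List Bool)) (n : ℕ),
      ∃ a : List Bool, a.length = n ∧
        (2 : ℝ) ^ (-((n : ℝ) / 2 + 1)) ≤ |({x : List Bool | x.length = n ∧
          ((arr 0 φ n 4 x a (n + 1) 0).getD 0 false = true ↔ x ∈ L)}.ncard : ℝ) / 2 ^ n -
            1 / 2|) :=
  ⟨fun K c hc => arraysD_all k hk K c hc, ipG, arr_sharp⟩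

end Pool.Agent.Results.MP_f404b1_lc.CellularArrays
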