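import Pool.Agent.H7N.Lang
import Pool.Agent.H7N.NPmem
import Pool.Agent.H7N.NPPS

/-!
The monotone NP language CLIQUE needs superpolynomial circuits even with `log n - O(log log n)`
NOT gates, or with one gate of arbitrary type and fan-in `n / (log n) ^ 13`.
-/

namespace Pool.Agent.Results.MP_f404b1_lc.CliqueNegations

open Pool.Agent.H7N

/-- CLIQUE is monotone, in NP and in PSPACE, and every circuit deciding CLIQUE on the words of
length `n` with `r` gates of arbitrary type and fan-in `f` (for `f = 1`: NOT gates) has at least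
`2 ^ s` AND/OR gates, if `log n ≤ s` and, for `K = 10 ^ 15 s ^ 8 (log n) ^ 4`, both `K ^ 2 ≤ n` and
`2 ^ r (f + 1) K ≤ n`. -/
theorem result :
    (∀ x y : List Bool, List.Forall₂ (· ≤ ·) x y → x ∈ cliqueLang → y ∈ cliqueLang) ∧
    cliqueLang ∈ Pool.Agent.H64.Cook.NP ∧ cliqueLang ∈ Pool.Agent.PPS.PSPACE ∧
    ∀ (n s r f t : ℕ) (L : List ((Fin n → Bool) → Bool)) (F : (Fin n → Bool) → Bool),
      2 ≤ n → Nat.log 2 n ≤ s →
      (10 ^ 15 * s ^ 8 * Nat.log 2 n ^ 4) ^ 2 ≤ n →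
      2 ^ r * (f + 1) * (10 ^ 15 * s ^ 8 * Nat.log 2 n ^ 4) ≤ n →
      Mixed f t r L → Source L F →
      (∀ x : Fin n → Bool, F x = true ↔ List.ofFn x ∈ cliqueLang) → 2 ^ s ≤ t :=
  ⟨fun _ _ h hx => cliqueLang_mono h hx, cliqueLang_mem_NP, NP_subset_PSPACE cliqueLang_mem_NP,
    fun _ _ _ _ _ _ _ hn hs h1 h2 hL hF h => lang_bound hn hs h1 h2 hL hF h⟩

end Pool.Agent.Results.MP_f404b1_lc.CliqueNegations
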