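import Pool.Agent.H7QC.CircT
import Pool.Agent.H7QC.TurQ
import Pool.Agent.H7CA.TurE

/-!
# Polynomial space against circuits and Turing machines with counting quantifiers

For every `k ≥ 1`, every `K` and every `c < 1 / 2` there is one language `L` in space
`O(n ^ k)` such that no quantified formula `Q y C (x, y a)` is correct on a fraction of the
inputs `x` of length `n` that differs from `1 / 2` by more than `2 ^ (-c n)`. Here `Q` is any
prefix of counting quantifiers over at most `K n ^ k` bits, `a` is an advice word of length at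
most `K n ^ k`, and `C` is

* any circuit of size `S (n)`, where `S log n = o(n ^ k)`, or
* a circuit of size `S (n)`, where `S log n = o(n ^ (2 k))`, with a description of length
  `o(n ^ k)` that can be decoded in linear space, or
* any multitape Turing machine, chosen freely for every `n`, that is stopped after `T (n)`
  steps, where `T (l + 1) log n = o(n ^ (2 k))`, with `2 ^ l (n)` states, where
  `2 ^ l (l + 1) = o(n ^ k)`.

The exponent `1 / 2` is optimal, even without quantifiers.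
-/

namespace Pool.Agent.Results.MP_f404b1_lc.QuantifiedCircuits

open Pool.Agent.PPS Pool.Agent.H7LS Pool.Agent.H7CA Pool.Agent.H7QC Filter Asymptotics

theorem result (k : ℕ) (hk : 1 ≤ k) :
    (∀ (K : ℕ) (c : ℝ), c < 1 / 2 → ∃ L ∈ SPC k,
      (∀ S : ℕ → ℕ,
        (fun n : ℕ => (S n : ℝ) * Nat.log 2 n) =o[atTop] (fun n : ℕ => (n : ℝ) ^ k) →
        ∀ᶠ n : ℕ in atTop, ∀ (f g h : List Bool → List Bool) (b a : List Bool)
          (q : List (ℕ × ℕ)),
          a.length ≤ K * n ^ k → (q.map (fun r => r.1 + 1)).sum ≤ K * n ^ k →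
          |({x : List Bool | x.length = n ∧
              (quant q (fun y => outC f g h b x (y ++ a) (S n)) = true ↔ x ∈ L)}.ncard : ℝ) /
              2 ^ n - 1 / 2| ≤ 2 ^ (-(c * n))) ∧
      (∀ f ∈ FLIN, ∀ g ∈ FLIN, ∀ h ∈ FLIN, ∀ p S : ℕ → ℕ,
        (fun n : ℕ => (p n : ℝ)) =o[atTop] (fun n : ℕ => (n : ℝ) ^ k) →
        (fun n : ℕ => (S n : ℝ) * Nat.log 2 n) =o[atTop] (fun n : ℕ => (n : ℝ) ^ (2 * k)) →
        ∀ᶠ n : ℕ in atTop, ∀ (b a : List Bool) (q : List (ℕ × ℕ)), b.length ≤ p n →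
          a.length ≤ K * n ^ k → (q.map (fun r => r.1 + 1)).sum ≤ K * n ^ k →
          |({x : List Bool | x.length = n ∧
              (quant q (fun y => outC f g h b x (y ++ a) (S n)) = true ↔ x ∈ L)}.ncard : ℝ) /
              2 ^ n - 1 / 2| ≤ 2 ^ (-(c * n))) ∧
      (∀ (κ γ : ℕ) (l T : ℕ → ℕ),
        (fun n : ℕ => (2 : ℝ) ^ l n * (l n + 1)) =o[atTop] (fun n : ℕ => (n : ℝ) ^ k) →
        (fun n : ℕ => (T n : ℝ) * (l n + 1) * Nat.log 2 n) =o[atTop]
          (fun n : ℕ => (n : ℝ) ^ (2 * k)) →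
        ∀ᶠ n : ℕ in atTop, ∀ (M : TM) (adv : M.K) (a : List Bool) (q : List (ℕ × ℕ)),
          Nat.card M.K ≤ κ → Nat.card M.Γ ≤ γ → Nat.card M.Q ≤ 2 ^ l n →
          a.length ≤ K * n ^ k → (q.map (fun r => r.1 + 1)).sum ≤ K * n ^ k →
          |({x : List Bool | x.length = n ∧
              (quant q (fun y => ansA M adv x (y ++ a) (T n)) = true ↔ x ∈ L)}.ncard : ℝ) /
            2 ^ n - 1 / 2| ≤ 2 ^ (-(c * n)))) ∧
    (∃ (M : TM) (adv : M.K), (Nat.card M.K = 2 ∧ Nat.card M.Γ = 2 ∧ Nat.card M.Q = 2) ∧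
      ∀ (L : Set (List Bool)) (n : ℕ), ∃ a : List Bool, a.length = n ∧
        (2 : ℝ) ^ (-((n : ℝ) / 2 + 1)) ≤
          |({x : List Bool | x.length = n ∧ (ansA M adv x a n = true ↔ x ∈ L)}.ncard : ℝ) /
            2 ^ n - 1 / 2|) := by
  refine ⟨fun K c hc => ?_, ipTM, true, card_ipTM, turing_sharp⟩
  obtain ⟨L, hL, h⟩ := exists_hardQ k hk K c hc
  exact ⟨L, hL, circuits_all_of_hardQ hk h, circuits_of_hardQ hk h, turing_of_hardQ hk h⟩

end Pool.Agent.Results.MP_f404b1_lc.QuantifiedCircuits
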