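import Pool.Agent.PPS.Auto.Fixed

/-!
# P = PSPACE and the group of polynomial-time permutations
-/

namespace Pool.Agent.Results.MP_f404b1_lc.ReversePerm

open Pool.Agent.PPS

/-- There is a length-preserving permutation `u` of the set of words over `{0, 1}` whose graph,
as a set of words over pairs of letters, is a regular language, such that the following are
equivalent: `P = PSPACE`; `u` is conjugate in `GP` to its inverse; every element of `GP` is
conjugate in `GP` to its inverse; every element of `GP` is a product of two involutions of `GP`;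
any two elements of `GP` that are conjugate by some length-preserving permutation are conjugate
in `GP`; the groups `GP` and `GPSPACE` are isomorphic; they are elementarily equivalent. -/
theorem result : ∃ u : Equiv.Perm (List Bool), (∀ x, (u x).length = x.length) ∧
    Language.IsRegular ({w | u (w.map Prod.fst) = w.map Prod.snd} : Language (Bool × Bool)) ∧
    List.TFAE [
    P = PSPACE,
    Nonempty (GP ≃* GPSPACE),
    mulLang.ElementarilyEquivalent GP GPSPACE,
    ∀ f ∈ GP, ∃ g ∈ GP, g * f * g⁻¹ = f⁻¹,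
    ∀ f ∈ GP, ∃ a ∈ GP, ∃ b ∈ GP, a * a = 1 ∧ b * b = 1 ∧ f = a * b,
    ∀ f ∈ GP, ∀ g ∈ GP,
      (∃ h : Equiv.Perm (List Bool), (∀ x, (h x).length = x.length) ∧ h * f * h⁻¹ = g) →
        ∃ h ∈ GP, h * f * h⁻¹ = g,
    ∃ g ∈ GP, g * u * g⁻¹ = u⁻¹] := by
  obtain ⟨u, hu, hhard⟩ := exists_fixed
  refine ⟨u, (aut_iff.mp hu).1, (aut_iff.mp hu).2, ?_⟩
  tfae_have 1 → 2 := fun h => ⟨MulEquiv.subgroupCongr (GP_eq_of_collapse h)⟩
  tfae_have 2 → 3 := fun ⟨e⟩ => elementarilyEquivalent_of_mulEquiv e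
  tfae_have 3 → 4 := by
    intro h f hf
    have h1 : FirstOrder.Language.Sentence.Realize GPSPACE revSentence := by
      rw [realize_revSentence]
      rintro ⟨x, hx⟩
      obtain ⟨s, hs, h1, h2⟩ := exists_flip hx
      refine ⟨⟨s, hs⟩, Subtype.ext ?_⟩
      show x * (s * x) = s
      rw [h2, mul_inv_cancel_left]
    have h2 : FirstOrder.Language.Sentence.Realize GP revSentence :=
      (FirstOrder.Language.elementarilyEquivalent_iff.mp h revSentence).mpr h1
    rw [realize_revSentence] at h2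
    obtain ⟨⟨g, hg⟩, h3⟩ := h2 ⟨f, hf⟩
    have h4 : f * (g * f) = g := congrArg Subtype.val h3
    refine ⟨g, hg, ?_⟩
    calc g * f * g⁻¹ = f⁻¹ * (f * (g * f)) * g⁻¹ := by group
      _ = f⁻¹ * g * g⁻¹ := by rw [h4]
      _ = f⁻¹ := by group
  tfae_have 4 → 7 := fun h => h u (mem_GP_of_aut hu)
  tfae_have 7 → 1 := fun ⟨g, hg, hgu⟩ => hhard g hg hgu
  tfae_have 1 → 5 := by
    intro h f hf
    have h1 := exists_involutions (GP_le_GPSPACE hf)
    rw [← GP_eq_of_collapse h] at h1
    exact h1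
  tfae_have 5 → 4 := by
    intro h f hf
    obtain ⟨a, ha, b, hb, h1, h2, h3⟩ := h f hf
    refine ⟨a, ha, ?_⟩
    have h4 : a⁻¹ = a := inv_eq_of_mul_eq_one_left h1
    have h5 : b⁻¹ = b := inv_eq_of_mul_eq_one_left h2
    rw [h3, mul_inv_rev, h4, h5, ← mul_assoc a a b, h1, one_mul]
  tfae_have 1 → 6 := by
    rintro h f hf g hg ⟨k, hk, hkk⟩
    rw [mem_GP_iff] at hf hg
    have hconj : ∀ x, k (f x) = g (k x) := by
      intro x
      have h1 : k * f = g * k := by rw [← hkk]; group
      exact congrArg (fun e : Equiv.Perm (List Bool) => e x) h1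
    obtain ⟨e, h1, h2, h3, h4⟩ := exists_conj hf.1 hg.1 hf.2.1.of_true hg.2.1.of_true hk hconj
    refine ⟨e, ?_, ?_⟩
    · rw [mem_GP_iff]
      exact ⟨h1, PT.of_collapse h h2, PT.of_collapse h h3⟩
    · have h5 : e * f = g * e := by ext1 x; exact h4 x
      rw [h5]; group
  tfae_have 6 → 4 := by
    intro h f hf
    apply h f hf f⁻¹ (GP.inv_mem hf)
    obtain ⟨s, hs, h1, h2⟩ := exists_flip (GP_le_GPSPACE hf)
    refine ⟨s, (mem_GPSPACE_iff.mp hs).1, ?_⟩
    rw [h2]; group
  tfae_finish

end Pool.Agent.Results.MP_f404b1_lc.ReversePerm
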